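import Pool.Agent.Helper40.OL.Spec

/-! Exactness of the descending complexes. -/

set_option autoImplicit false

namespace Pool.Agent.Helper15.OL

open Pool.Agent.Helper40.OL

theorem eq_on_Sup {X Y : Type} {T : Set X} {f g : (X →₀ ℤ) →ₗ[ℤ] (Y →₀ ℤ)}
    (h : ∀ c ∈ T, f (Finsupp.single c 1) = g (Finsupp.single c 1)) {z : X →₀ ℤ} (hz : z ∈ Sup T) :
    f z = g z := by
  unfold Sup at hz
  rw [Finsupp.supported_eq_span_single] at hz
  have h' : Set.EqOn f g ((fun i => Finsupp.single i (1 : ℤ)) '' T) := by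
    rintro _ ⟨c, hc, rfl⟩
    exact h c hc
  exact LinearMap.eqOn_span h' hz

theorem map_Sup {X Y : Type} {T : Set X} {T' : Set Y} {f : (X →₀ ℤ) →ₗ[ℤ] (Y →₀ ℤ)}
    (h : ∀ c ∈ T, f (Finsupp.single c 1) ∈ Sup T') {z : X →₀ ℤ} (hz : z ∈ Sup T) :
    f z ∈ Sup T' := by
  unfold Sup at hz
  rw [Finsupp.supported_eq_span_single] at hz
  have h' : Submodule.span ℤ ((fun i => Finsupp.single i (1 : ℤ)) '' T) ≤ (Sup T').comap f := by
    rw [Submodule.span_le]
    rintro _ ⟨c, hc, rfl⟩
    exact h c hc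
  exact h' hz

/-- the sublists in the boundary -/
theorem lb_supp : ∀ (R R' : List ℕ), R' ∈ (lb R).support → R'.Sublist R ∧ R'.length + 1 = R.length := by
  classical
  intro R
  induction R with
  | nil => intro R' h; simp [lb] at h
  | cons r R ih =>
    intro R' h
    unfold lb at h
    have h1 := Finsupp.support_sub h
    rw [Finset.mem_union] at h1
    rcases h1 with h1 | h1
    · have h2 := Finsupp.support_single_subset h1
      rw [Finset.mem_singleton] at h2
      subst h2
      exact ⟨List.sublist_cons_self _ _, by simp⟩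
    · have h2 := Finsupp.mapDomain_support h1
      rw [Finset.mem_image] at h2
      obtain ⟨R'', hR'', rfl⟩ := h2
      obtain ⟨e1, e2⟩ := ih R'' hR''
      exact ⟨e1.cons_cons r, by simp [e2]⟩

theorem res_idem (R : List ℕ) (l : ℕ × ℕ → ℤ) : res R (res R l) = res R l := by
  funext y
  unfold res
  by_cases h : y.1 ∈ R ∨ y.2 ∈ R
  · simp [h]
  · simp [h]

theorem lbL_supp (W : Finset ℕ) (T : Finset (ℕ × ℕ)) (j : ℕ) (c : List ℕ × (ℕ × ℕ → ℤ))
    (hc : c ∈ IndL W T j) : lbL c ∈ Sup {c' | ∃ j', c' ∈ IndL W T j'} := by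
  classical
  rw [Finsupp.mem_supported]
  intro c' hc'
  unfold lbL at hc'
  have h2 := Finsupp.mapDomain_support (Finset.mem_coe.1 hc')
  rw [Finset.mem_image] at h2
  obtain ⟨R', hR', rfl⟩ := h2
  obtain ⟨e1, e2⟩ := lb_supp _ _ hR'
  obtain ⟨⟨f1, f2, f3⟩, f4, f5⟩ := hc
  refine ⟨R'.length, ⟨f1.sublist e1, fun r hr => f2 r (e1.subset hr), rfl⟩, ?_, res_idem _ _⟩
  intro y hy
  show res R' c.2 y = 0
  unfold res
  split_ifs
  · exact f4 y hy
  · rfl

/-- the part with the top vertex `v` -/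
noncomputable def Fl {G : Type} [Group G] (S : SplitSys G) (v : Vt S) :
    (Cb S →₀ ℤ) →ₗ[ℤ] (Cb S →₀ ℤ) := by
  classical
  exact Finsupp.linearCombination ℤ (fun c => if topV S 0 c.1 c.2 = v then Finsupp.single c 1 else 0)

theorem Fl_single {G : Type} [Group G] (S : SplitSys G) (v : Vt S) (c : Cb S) [Decidable (topV S 0 c.1 c.2 = v)] :
    Fl S v (Finsupp.single c 1) = if topV S 0 c.1 c.2 = v then Finsupp.single c 1 else 0 := by
  unfold Fl
  rw [Finsupp.linearCombination_single, one_smul]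
  congr

theorem fb_single {G : Type} [Group G] (S : SplitSys G) (c : Cb S) :
    fb S (Finsupp.single c 1) = fbRec S c.1 c.2 := by
  unfold fb
  rw [Finsupp.linearCombination_single, one_smul]

theorem Fl_fb {G : Type} [Group G] (S : SplitSys G) (hTOP : S_TOP) (k N : ℕ) (v : Vt S)
    {z : Cb S →₀ ℤ} (hz : z ∈ Sup {c | Ok S k N c}) : Fl S v (fb S z) = fb S (Fl S v z) := by
  classical
  have h := eq_on_Sup (f := (Fl S v).comp (fb S)) (g := (fb S).comp (Fl S v))
    (T := {c | Ok S k N c}) ?_ hz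
  · exact h
  intro c hc
  rw [LinearMap.comp_apply, LinearMap.comp_apply, fb_single, Fl_single]
  obtain ⟨-, ht⟩ := hTOP G S k N c.1 c.2 hc
  have hs : fbRec S c.1 c.2 ∈ Sup {c' : Cb S | topV S 0 c'.1 c'.2 = topV S 0 c.1 c.2} := by
    rw [Finsupp.mem_supported]
    intro c' hc'
    exact ht c' hc'
  by_cases hv : topV S 0 c.1 c.2 = v
  · rw [if_pos hv, fb_single]
    have := eq_on_Sup (f := Fl S v) (g := LinearMap.id) (T := {c' : Cb S | topV S 0 c'.1 c'.2 = topV S 0 c.1 c.2})
      ?_ hs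
    · exact this
    intro c' hc'
    rw [Fl_single, if_pos (by rw [← hv]; exact hc')]
    rfl
  · rw [if_neg hv, map_zero]
    have := eq_on_Sup (f := Fl S v) (g := 0) (T := {c' : Cb S | topV S 0 c'.1 c'.2 = topV S 0 c.1 c.2})
      ?_ hs
    · exact this
    intro c' hc'
    rw [Fl_single, if_neg]
    · rfl
    · intro h
      exact hv (hc'.symm.trans h)

/-- enough merges -/
theorem card_WW (r N : ℕ) (y : E) : N ≤ (WW r N y).card + (r + 2) := by
  classical
  set B : Finset ℕ := (Finset.range N).filter (fun x => ∃ i : ℕ, i ≤ r ∧ y.f x = i) with hB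
  have hBc : B.card ≤ r + 1 := by
    have : B.card ≤ (Finset.range (r + 1)).card := by
      refine Finset.card_le_card_of_injOn (fun x : ℕ => ⌊y.f x⌋₊) ?_ ?_
      · intro x hx
        obtain ⟨i, hi, hy⟩ := (Finset.mem_filter.1 (Finset.mem_coe.1 hx)).2
        simp only [Finset.coe_range, Set.mem_Iio]
        rw [hy, Nat.floor_natCast]
        omega
      · intro x hx x' hx' hxx
        obtain ⟨i, hi, hy⟩ := (Finset.mem_filter.1 (Finset.mem_coe.1 hx)).2
        obtain ⟨i', hi', hy'⟩ := (Finset.mem_filter.1 (Finset.mem_coe.1 hx')).2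
        simp only at hxx
        rw [hy, hy', Nat.floor_natCast, Nat.floor_natCast] at hxx
        rw [← hxx, ← hy] at hy'
        have := y.f.injective hy'
        exact_mod_cast this.symm
    simpa using this
  have hsub : Finset.range N ⊆ WW r N y ∪ B ∪ {0} := by
    intro x hx
    rw [Finset.mem_union, Finset.mem_union, Finset.mem_singleton]
    by_cases h0 : x = 0
    · exact Or.inr h0
    left
    by_cases h1 : ∃ i : ℕ, i ≤ r ∧ y.f x = i
    · right
      exact Finset.mem_filter.2 ⟨hx, h1⟩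
    · left
      push Not at h1
      unfold WW
      rw [Finset.mem_filter]
      exact ⟨hx, by omega, h1⟩
  have h1 := Finset.card_le_card hsub
  have h2 := Finset.card_union_le (WW r N y ∪ B) {0}
  have h3 := Finset.card_union_le (WW r N y) B
  rw [Finset.card_range] at h1
  rw [Finset.card_singleton] at h2
  omega

theorem desc_thm (hPSI : S_PSI) (hTOP : S_TOP) (hLAB : S_LAB) : S_DESC := by
  classical
  intro r h hr k
  refine ⟨3 * k + r + 10, ?_⟩
  intro N hN j hj
  set S := SY h with hS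
  intro z hz hfz
  -- the statement for chains with one top vertex
  have key : ∀ v : Vt S, v.1 = N → ∀ z ∈ Sup ({c | Ok S j N c} ∩ {c : Cb S | topV S 0 c.1 c.2 = v}),
      fb S z = 0 → ∃ w ∈ Sup {c | Ok S (j + 1) N c}, fb S w = z := by
    rintro ⟨N', v, hv⟩ hvN z hz hfz
    simp only at hvN
    subst hvN
    obtain ⟨y, hy, rfl⟩ := hv
    obtain ⟨Ψ, p1, p2, p3, p4⟩ := hPSI r h hr N' y hy
    set W := WW r N' y with hW
    have hWc : 3 * k + 1 ≤ W.card := by
      have hcw := card_WW r N' y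
      rw [← hW] at hcw
      omega
    have hfb : ∀ i, ∀ u ∈ Sup (IndL W (TT N') i),
        fb S (Finsupp.mapDomain Ψ u) = Finsupp.mapDomain Ψ (Finsupp.linearCombination ℤ lbL u) := by
      intro i u hu
      have := eq_on_Sup (f := (fb S).comp (Finsupp.lmapDomain ℤ ℤ Ψ))
        (g := (Finsupp.lmapDomain ℤ ℤ Ψ).comp (Finsupp.linearCombination ℤ lbL))
        (T := IndL W (TT N') i) ?_ hu
      · exact this
      intro c hc
      rw [LinearMap.comp_apply, LinearMap.comp_apply, Finsupp.lmapDomain_apply,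
        Finsupp.lmapDomain_apply, Finsupp.mapDomain_single, fb_single,
        Finsupp.linearCombination_single, one_smul]
      exact p4 i c hc
    have hinj : Set.InjOn Ψ {c' | ∃ j', c' ∈ IndL W (TT N') j'} := by
      rintro c ⟨j1, hc⟩ c' ⟨j2, hc'⟩ hcc
      exact p2 j1 j2 c hc c' hc' hcc
    -- preimage
    have hch : ∀ q : Cb S, ∃ c, q ∈ ({c | Ok S j N' c} ∩ {c : Cb S | topV S 0 c.1 c.2 =
        (⟨N', ⟨(y : E ⧸ K N'), ⟨y, hy, rfl⟩⟩⟩ : Vt S)}) → c ∈ IndL W (TT N') j ∧ Ψ c = q := by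
      intro q
      by_cases hq : q ∈ ({c | Ok S j N' c} ∩ {c : Cb S | topV S 0 c.1 c.2 =
        (⟨N', ⟨(y : E ⧸ K N'), ⟨y, hy, rfl⟩⟩⟩ : Vt S)})
      · obtain ⟨c, hc1, hc2⟩ := p3 j q hq.1 hq.2
        exact ⟨c, fun _ => ⟨hc1, hc2⟩⟩
      · exact ⟨([], 0), fun h => absurd h hq⟩
    choose cc hcc using hch
    rw [Finsupp.mem_supported] at hz
    set z' : (List ℕ × (ℕ × ℕ → ℤ)) →₀ ℤ := Finsupp.mapDomain cc z with hz'
    have hz'S : z' ∈ Sup (IndL W (TT N') j) := by
      rw [Finsupp.mem_supported]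
      intro c hc
      have h2 := Finsupp.mapDomain_support (Finset.mem_coe.1 hc)
      rw [Finset.mem_image] at h2
      obtain ⟨q, hq, rfl⟩ := h2
      exact (hcc q (hz hq)).1
    have hΨz : Finsupp.mapDomain Ψ z' = z := by
      rw [hz', ← Finsupp.mapDomain_comp]
      conv_rhs => rw [← Finsupp.mapDomain_id (v := z)]
      refine Finsupp.mapDomain_congr ?_
      intro q hq
      exact (hcc q (hz hq)).2
    have hd : Finsupp.linearCombination ℤ lbL z' = 0 := by
      have h1 : Finsupp.mapDomain Ψ (Finsupp.linearCombination ℤ lbL z') = 0 := by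
        rw [← hfb j z' hz'S, hΨz, hfz]
      have h2 : Finsupp.linearCombination ℤ lbL z' ∈ Sup {c' | ∃ j', c' ∈ IndL W (TT N') j'} := by
        refine map_Sup ?_ hz'S
        intro c hc
        rw [Finsupp.linearCombination_single, one_smul]
        exact lbL_supp W (TT N') j c hc
      rw [Finsupp.mem_supported] at h2
      have h3 := Finsupp.mapDomain_injOn (M := ℤ) {c' | ∃ j', c' ∈ IndL W (TT N') j'} hinj
      exact h3 h2 (by simp) (by rw [h1, Finsupp.mapDomain_zero])
    obtain ⟨w', hw', hdw⟩ := hLAB (TT N') W k hWc j hj z' hz'S hd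
    refine ⟨Finsupp.mapDomain Ψ w', ?_, ?_⟩
    · have := map_Sup (f := Finsupp.lmapDomain ℤ ℤ Ψ) (T := IndL W (TT N') (j + 1))
        (T' := {c | Ok S (j + 1) N' c}) ?_ hw'
      · exact this
      intro c hc
      rw [Finsupp.lmapDomain_apply, Finsupp.mapDomain_single]
      exact Finsupp.single_mem_supported ℤ 1 (p1 (j + 1) c hc).1
    · rw [hfb (j + 1) w' hw', hdw, hΨz]
  -- decomposition
  set V : Finset (Vt S) := z.support.image (fun c => topV S 0 c.1 c.2) with hV
  have hdec : z = ∑ v ∈ V, Fl S v z := by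
    have hz2 : z ∈ Sup (z.support : Set (Cb S)) := by rw [Finsupp.mem_supported]
    have := eq_on_Sup (f := LinearMap.id) (g := ∑ v ∈ V, Fl S v) (T := (z.support : Set (Cb S))) ?_ hz2
    · rw [LinearMap.id_apply, LinearMap.sum_apply] at this
      exact this
    intro c hc
    rw [LinearMap.id_apply, LinearMap.sum_apply]
    have hcV : topV S 0 c.1 c.2 ∈ V := Finset.mem_image.2 ⟨c, hc, rfl⟩
    rw [Finset.sum_eq_single_of_mem _ hcV]
    · rw [Fl_single, if_pos rfl]
    · intro v hv hvne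
      rw [Fl_single, if_neg (Ne.symm hvne)]
  have hVN : ∀ v ∈ V, v.1 = N := by
    intro v hv
    obtain ⟨c, hc, rfl⟩ := Finset.mem_image.1 hv
    rw [Finsupp.mem_supported] at hz
    exact (hTOP _ S j N c.1 c.2 (hz hc)).1
  have hpart : ∀ v ∈ V, ∃ w ∈ Sup {c | Ok S (j + 1) N c}, fb S w = Fl S v z := by
    intro v hv
    refine key v (hVN v hv) (Fl S v z) ?_ ?_
    · refine map_Sup ?_ hz
      intro c hc
      rw [Fl_single]
      split_ifs with hcv
      · exact Finsupp.single_mem_supported ℤ 1 ⟨hc, hcv⟩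
      · exact Submodule.zero_mem _
    · rw [← Fl_fb S hTOP j N v hz, hfz, map_zero]
  choose! w hw1 hw2 using hpart
  refine ⟨∑ v ∈ V, w v, Submodule.sum_mem _ (fun v hv => hw1 v hv), ?_⟩
  rw [map_sum]
  conv_rhs => rw [hdec]
  exact Finset.sum_congr rfl (fun v hv => hw2 v hv)

end Pool.Agent.Helper15.OL
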