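import Pool.Agent.Helper40.OL.Spec

/-! Exactness of the whole complex. -/

set_option autoImplicit false

namespace Pool.Agent.Helper15.OL

open Pool.Agent.Helper40.OL

theorem le_trans' {G : Type} [Group G] {S : SplitSys G} {x y z : Vt S} (h : Le S x y) :
    Le S y z → Le S x z := by
  induction h with
  | refl x => exact id
  | step i hi h ih => intro h'; exact Le.step i hi (ih h')

theorem common {G : Type} [Group G] {S : SplitSys G} (hD : Dir S) (T : Finset (Vt S))
    (hT : T.Nonempty) : ∃ y, ∀ x ∈ T, Le S x y := by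
  classical
  induction hT using Finset.Nonempty.cons_induction with
  | singleton a => exact ⟨a, fun x hx => by rw [Finset.mem_singleton.1 hx]; exact Le.refl a⟩
  | cons a s ha hs ih =>
    obtain ⟨y, hy⟩ := ih
    obtain ⟨y', h1, h2⟩ := hD a y
    refine ⟨y', fun x hx => ?_⟩
    rcases Finset.mem_cons.1 hx with rfl | hx
    · exact h1
    · exact le_trans' (hy x hx) h2

theorem exd_thm (hEXB : S_EXB) : S_EXD := by
  classical
  intro G _ S h2 h3 hD k z hz hbd hsum
  by_cases hz0 : z = 0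
  · exact ⟨0, Submodule.zero_mem _, by rw [hz0, map_zero]⟩
  rw [Finsupp.mem_supported] at hz
  set T : Finset (Vt S) := z.support.biUnion
    (fun c => insert c.1 ((c.2.map (fun a => sV S a c.1)).toFinset)) with hT
  have hTne : T.Nonempty := by
    obtain ⟨c, hc⟩ := Finsupp.support_nonempty_iff.2 hz0
    exact ⟨c.1, Finset.mem_biUnion.2 ⟨c, hc, Finset.mem_insert_self _ _⟩⟩
  obtain ⟨y, hy⟩ := common hD T hTne
  have hzB : z ∈ Sup (Below S y k) := by
    rw [Finsupp.mem_supported]
    intro c hc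
    refine ⟨hz hc, hy _ (Finset.mem_biUnion.2 ⟨c, hc, Finset.mem_insert_self _ _⟩), ?_⟩
    intro a ha
    refine hy _ (Finset.mem_biUnion.2 ⟨c, hc, Finset.mem_insert_of_mem ?_⟩)
    rw [List.mem_toFinset, List.mem_map]
    exact ⟨a, ha, rfl⟩
  have hsub : ∀ k, Sup (Below S y k) ≤ Sup {c : Cb S | ∃ N, Ok S k N c} :=
    fun k => Finsupp.supported_mono (fun c hc => hc.1)
  obtain ⟨e1, e2⟩ := hEXB G S h2 h3 y
  rcases k with _ | k
  · obtain ⟨w, hw, hbw⟩ := e2 z hzB
    refine ⟨w, hsub 1 hw, ?_⟩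
    rw [hbw, hsum rfl, zero_smul, sub_zero]
  · obtain ⟨w, hw, hbw⟩ := e1 k z hzB hbd
    exact ⟨w, hsub _ hw, hbw⟩

end Pool.Agent.Helper15.OL
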