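import Pool.Agent.Helper40.OL.Spec

/-! The split system of `Γ_r` is admissible and directed. -/

set_option autoImplicit false

namespace Pool.Agent.Helper15.OL

open Pool.Agent.Helper40.OL

/-- the coset of a vertex -/
def cs {r : ℕ} {h : HY r} (x : Vt (SY h)) : E ⧸ K x.1 := Subtype.val (show VY r x.1 from x.2)

theorem cs_rep {r : ℕ} {h : HY r} (x : Vt (SY h)) : ∃ w ∈ Y r x.1, (w : E ⧸ K x.1) = cs x :=
  Subtype.property (show VY r x.1 from x.2)

/-- the vertex of an element of `Y` -/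
def vx {r : ℕ} (h : HY r) {n : ℕ} (w : E) (hw : w ∈ Y r n) : Vt (SY h) :=
  ⟨n, (show (SY h).V n from (⟨(w : E ⧸ K n), ⟨w, hw, rfl⟩⟩ : VY r n))⟩

theorem eq_vx {r : ℕ} {h : HY r} (x : Vt (SY h)) (w : E) (hw : w ∈ Y r x.1)
    (hc : (w : E ⧸ K x.1) = cs x) : x = vx h w hw := by
  obtain ⟨n, v⟩ := x
  unfold vx
  congr 1
  apply Subtype.ext
  exact hc.symm

theorem sV_vx {r : ℕ} (h : HY r) {n : ℕ} (w : E) (hw : w ∈ Y r n) (i : ℕ) (hi : i < n) :
    sV (SY h) i (vx h w hw) = vx h (n := n + 1) (w * tau i) (h.sub n w hw i hi) := by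
  have e : idx n i = i := if_pos hi
  unfold sV vx
  congr 1
  apply Subtype.ext
  show rmul h.conj n (idx n i) (w : E ⧸ K n) = ((w * tau i : E) : E ⧸ K (n + 1))
  rw [e]
  rfl

theorem sV_rep {r : ℕ} {h : HY r} (x : Vt (SY h)) (w : E) (hw : (w : E ⧸ K x.1) = cs x) (i : ℕ)
    (hi : i < x.1) : ((w * tau i : E) : E ⧸ K (x.1 + 1)) = cs (sV (SY h) i x) := by
  have e : idx x.1 i = i := if_pos hi
  show _ = rmul h.conj x.1 (idx x.1 i) (cs x)
  rw [e, ← hw]
  rfl

theorem Fo_of_Le {r : ℕ} {h : HY r} {x y : Vt (SY h)} (hxy : Le (SY h) x y) :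
    ∀ w y' : E, (w : E ⧸ K x.1) = cs x → (y' : E ⧸ K y.1) = cs y → Fo x.1 y.1 (w⁻¹ * y') := by
  induction hxy with
  | refl x =>
    intro w y' hw hy
    rw [← hw] at hy
    exact Fo.base (QuotientGroup.eq.1 hy.symm)
  | @step x y i hi hle ih =>
    intro w y' hw hy
    have h1 := ih (w * tau i) y' (sV_rep x w hw i hi) hy
    have h2 := Fo.step hi h1
    have e : tau i * ((w * tau i)⁻¹ * y') = w⁻¹ * y' := by group
    rw [e] at h2
    exact h2

theorem Y_Fo {r : ℕ} (h : HY r) (hK : ∀ n, ∀ y ∈ Y r n, ∀ k ∈ K n, y * k ∈ Y r n) {n N : ℕ} {p : E}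
    (hp : Fo n N p) : ∀ w ∈ Y r n, w * p ∈ Y r N := by
  induction hp with
  | base hg => intro w hw; exact hK _ w hw _ hg
  | @step n N i g hi hg ih =>
    intro w hw
    have := ih (w * tau i) (h.sub n w hw i hi)
    rwa [mul_assoc] at this

theorem Le_of_Fo {r : ℕ} (h : HY r) {n N : ℕ} {g : E} (hg : Fo n N g) :
    ∀ (w : E) (hw : w ∈ Y r n) (y : E) (hy : y ∈ Y r N), w * g = y →
      Le (SY h) (vx h w hw) (vx h y hy) := by
  induction hg with
  | @base n g hg =>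
    intro w hw y hy hwy
    have : vx h w hw = vx h y hy := by
      unfold vx
      congr 1
      apply Subtype.ext
      show (w : E ⧸ K n) = (y : E ⧸ K n)
      rw [QuotientGroup.eq, ← hwy]
      simpa using hg
    rw [this]
    exact Le.refl _
  | @step n N i g hi hg ih =>
    intro w hw y hy hwy
    refine Le.step i hi ?_
    rw [sV_vx h w hw i hi]
    refine ih _ _ y hy ?_
    rw [← hwy, mul_assoc]

/-- the key equivalence -/
theorem Le_iff {r : ℕ} (h : HY r) {n N : ℕ} (w : E) (hw : w ∈ Y r n) (y : E) (hy : y ∈ Y r N) :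
    Le (SY h) (vx h w hw) (vx h y hy) ↔ Fo n N (w⁻¹ * y) := by
  constructor
  · intro hle
    exact Fo_of_Le hle w y rfl rfl
  · intro hF
    exact Le_of_Fo h hF w hw y hy (by group)

theorem exists_vx {r : ℕ} {h : HY r} (x : Vt (SY h)) :
    ∃ (n : ℕ) (w : E) (hw : w ∈ Y r n), x = vx h w hw := by
  obtain ⟨w, hw, hc⟩ := cs_rep x
  exact ⟨x.1, w, hw, eq_vx x w hw hc⟩

theorem inst_thm (hINT : S_INT) (hY : S_Y) : S_INST := by
  obtain ⟨-, hI2, hI3⟩ := hINT
  intro r h hr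
  obtain ⟨-, y2, y3, -, -, -, y7, -, -, -⟩ := hY r hr
  refine ⟨?_, ?_, ?_, ?_⟩
  · -- Adm2
    intro x y a b hab hb h1 h2
    obtain ⟨n, w, hw, rfl⟩ := exists_vx x
    obtain ⟨N, u, hu, rfl⟩ := exists_vx y
    have hb' : b < n := hb
    have ha' : a < n := by omega
    rw [sV_vx h w hw a ha', Le_iff] at h1
    rw [sV_vx h w hw b hb', Le_iff] at h2
    rw [sV_vx h w hw a ha', sV_vx h _ _ (b + 1) (by omega), Le_iff]
    obtain ⟨l, hl1, hl2⟩ := hI3 n N b _ h2 hb'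
    have e1 : tau b * ((w * tau b)⁻¹ * u) = w⁻¹ * u := by group
    rw [e1] at hl1 hl2
    have e2 : (w * tau a * tau (b + 1))⁻¹ * u = (tau (b + 1))⁻¹ * ((w * tau a)⁻¹ * u) := by group
    rw [e2]
    refine hI2 (n + 1) N (b + 1) _ h1 (by omega) ⟨l, ?_⟩
    have e3 : ((w * tau a)⁻¹ * u).f l = (w⁻¹ * u).f l + 1 := by
      have : (w * tau a)⁻¹ * u = (tau a)⁻¹ * (w⁻¹ * u) := by group
      rw [this, E.mul_f, Equiv.Perm.mul_apply, E.inv_f]
      show (tauP a)⁻¹ ((w⁻¹ * u).f l) = _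
      rw [tauP_inv_apply]
      unfold sg
      have hab' : (a : ℝ) + 1 ≤ b := by exact_mod_cast hab
      rw [if_neg (by linarith), if_neg (by linarith)]
    rw [e3]
    push_cast
    constructor <;> linarith
  · -- Adm3
    intro x y a b hab hb h1 h2
    obtain ⟨n, w, hw, rfl⟩ := exists_vx x
    obtain ⟨N, u, hu, rfl⟩ := exists_vx y
    have hb' : b < n := hb
    have ha' : a < n := by omega
    rw [sV_vx h w hw b hb', Le_iff] at h1
    rw [sV_vx h w hw b hb', sV_vx h _ _ a (by omega), Le_iff] at h2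
    rw [sV_vx h w hw a ha', Le_iff]
    obtain ⟨l, hl1, hl2⟩ := hI3 (n + 1) N a _ h2 (by omega)
    have e1 : tau a * ((w * tau b * tau a)⁻¹ * u) = (w * tau b)⁻¹ * u := by group
    rw [e1] at hl1 hl2
    have h0 : Fo n N (w⁻¹ * u) := by
      have := Fo.step hb' h1
      have e : tau b * ((w * tau b)⁻¹ * u) = w⁻¹ * u := by group
      rwa [e] at this
    have e2 : (w * tau a)⁻¹ * u = (tau a)⁻¹ * (w⁻¹ * u) := by group
    rw [e2]
    refine hI2 n N a _ h0 ha' ⟨l, ?_⟩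
    have e3 : (w⁻¹ * u).f l = ((w * tau b)⁻¹ * u).f l := by
      have : w⁻¹ * u = tau b * ((w * tau b)⁻¹ * u) := by group
      conv_lhs => rw [this]
      rw [E.mul_f, Equiv.Perm.mul_apply]
      show tauP b (((w * tau b)⁻¹ * u).f l) = _
      rw [tauP_apply]
      unfold tg
      have hab' : (a : ℝ) + 1 ≤ b := by exact_mod_cast hab
      rw [if_pos (by linarith)]
    rw [e3]
    exact ⟨hl1, hl2⟩
  · -- Dir
    intro x x'
    obtain ⟨n, w, hw, rfl⟩ := exists_vx x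
    obtain ⟨n', w', hw', rfl⟩ := exists_vx x'
    obtain ⟨N, p, p', hp, hp', hpp⟩ := y7 n n' w hw w' hw'
    have hy : w * p ∈ Y r N := Y_Fo h y3 hp w hw
    refine ⟨vx h (w * p) hy, ?_, ?_⟩
    · exact Le_of_Fo h hp w hw _ hy rfl
    · exact Le_of_Fo h hp' w' hw' _ hy hpp.symm
  · obtain ⟨y, hy⟩ := y2
    exact ⟨vx h y hy⟩

end Pool.Agent.Helper15.OL
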